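import Pool.Agent.Q2N.Stmts

/-!
# LEMMA H: orders of equivariant maps on an algebra with windows
-/

set_option autoImplicit false

open Module

namespace Pool.Agent.Q2N.H47

open Pool.Agent.UW

section

variable {F K : Type} [Field F] [Field K] [Algebra F K]

theorem τ_inj (S : Dat F K) (p : S.X) {m n : ℤ} (h : (S.τ ^ m) p = (S.τ ^ n) p) : m = n := by
  have h1 : (S.τ ^ (m - n)) p = p := by
    rw [sub_eq_add_neg, add_comm, zpow_add, zpow_neg]
    show (S.τ ^ n)⁻¹ ((S.τ ^ m) p) = p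
    rw [h]
    exact (S.τ ^ n).symm_apply_apply p
  have h2 := S.free p _ h1
  linarith

theorem reg_large (S : Dat F K) (g : K) (p : S.X) :
    ∃ s0 : ℕ, ∀ s : ℕ, s0 ≤ s → 0 ≤ S.v ((S.τ ^ s) p) g := by
  by_cases hg : g = 0
  · refine ⟨0, fun s _ => ?_⟩
    rw [hg, AddValuation.map_zero]
    exact le_top
  · have hfin : {s : ℕ | S.v ((S.τ ^ s) p) g ≠ 0}.Finite := by
      have h1 : Set.InjOn (fun s : ℕ => (S.τ ^ s) p)
          ((fun s : ℕ => (S.τ ^ s) p) ⁻¹' {q | S.v q g ≠ 0}) := by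
        intro a _ b _ hab
        have h2 : (S.τ ^ (a : ℤ)) p = (S.τ ^ (b : ℤ)) p := by
          rw [zpow_natCast, zpow_natCast]
          exact hab
        exact_mod_cast τ_inj S p h2
      exact Set.Finite.preimage h1 (S.fin g hg)
    obtain ⟨B, hB⟩ := hfin.bddAbove
    refine ⟨B + 1, fun s hs => ?_⟩
    by_contra hneg
    have h3 : S.v ((S.τ ^ s) p) g ≠ 0 := by
      intro h
      exact hneg h.ge
    have := hB h3
    omega

theorem ord_sum (S : Dat F K) (p : S.X) (J : Finset ℤ) (θ d : ℤ → K) (n : ℕ)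
    (h1 : ∀ j ∈ J, 0 ≤ S.v p (θ j)) (h2 : ∀ j ∈ J, ng n ≤ S.v p (d j)) :
    ng n ≤ S.v p (∑ j ∈ J, θ j * d j) := by
  apply AddValuation.map_le_sum
  intro j hj
  rw [AddValuation.map_mul]
  calc ng n = 0 + ng n := (zero_add _).symm
    _ ≤ _ := add_le_add (h1 j hj) (h2 j hj)

theorem ord_large (S : Dat F K) (J : Finset ℤ) (θ : ℤ → K) (p : S.X) :
    ∃ s0 : ℕ, ∀ s : ℕ, s0 ≤ s → ∀ j ∈ J, 0 ≤ S.v ((S.τ ^ s) p) (θ j) := by
  classical
  induction J using Finset.induction_on with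
  | empty => exact ⟨0, fun s _ j hj => absurd hj (Finset.notMem_empty j)⟩
  | insert k J _ ih =>
    obtain ⟨s1, h1⟩ := ih
    obtain ⟨s2, h2⟩ := reg_large S (θ k) p
    refine ⟨max s1 s2, fun s hs j hj => ?_⟩
    rcases Finset.mem_insert.1 hj with rfl | hj
    · exact h2 s ((le_max_right _ _).trans hs)
    · exact h1 s ((le_max_left _ _).trans hs) j hj

theorem fwd_fin (S : Dat F K) (ν₁ ν₂ : S.X → ℕ) (h₁ : Fwd S ν₁) (h₂ : Fwd S.inv ν₂) :
    {p : S.X | min (ν₁ p) (ν₂ p) ≠ 0}.Finite := by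
  obtain ⟨T₁, c₁, hT₁, h₁⟩ := h₁
  obtain ⟨T₂, c₂, hT₂, h₂⟩ := h₂
  have hpair : ∀ t₁ t₂ : S.X, {p : S.X | (∃ s : ℤ, -c₁ ≤ s ∧ (S.τ ^ s) p = t₁) ∧
      ∃ s : ℤ, -c₂ ≤ s ∧ (S.τ⁻¹ ^ s) p = t₂}.Finite := by
    intro t₁ t₂
    rcases Set.eq_empty_or_nonempty {p : S.X | (∃ s : ℤ, -c₁ ≤ s ∧ (S.τ ^ s) p = t₁) ∧
      ∃ s : ℤ, -c₂ ≤ s ∧ (S.τ⁻¹ ^ s) p = t₂} with he | ⟨p0, ⟨s0, hs0, h0⟩, ⟨s0', hs0', h0'⟩⟩
    · rw [he]
      exact Set.finite_empty
    · refine Set.Finite.subset ((Set.finite_Icc (-c₁) (s0 + s0' + c₂)).image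
        fun s => (S.τ ^ (-s)) t₁) ?_
      rintro p ⟨⟨s, hs, h⟩, ⟨s', hs', h'⟩⟩
      have h3 : ∀ (q : S.X) (a b : ℤ), (S.τ ^ a) q = t₁ → (S.τ⁻¹ ^ b) q = t₂ →
          (S.τ ^ (a + b)) t₂ = t₁ := by
        intro q a b ha hb
        rw [← hb, ← ha, inv_zpow', ← Equiv.Perm.mul_apply, ← zpow_add]
        congr 2
        ring
      have h4 : s + s' = s0 + s0' := τ_inj S t₂ ((h3 p s s' h h').trans (h3 p0 s0 s0' h0 h0').symm)
      refine ⟨s, Set.mem_Icc.2 ⟨hs, by linarith⟩, ?_⟩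
      show (S.τ ^ (-s)) t₁ = p
      rw [← h, ← Equiv.Perm.mul_apply, ← zpow_add, neg_add_cancel, zpow_zero]
      rfl
  refine Set.Finite.subset (hT₁.biUnion fun t₁ _ => hT₂.biUnion fun t₂ _ => hpair t₁ t₂) ?_
  intro p hp
  have hp' : min (ν₁ p) (ν₂ p) ≠ 0 := hp
  obtain ⟨s, hs, h⟩ := h₁ p (by omega)
  obtain ⟨s', hs', h'⟩ := h₂ p (by omega)
  exact Set.mem_biUnion h (Set.mem_biUnion h' ⟨⟨s, hs, rfl⟩, ⟨s', hs', rfl⟩⟩)

theorem zpow_mem {K : Type} [Field K] {φ : RingAut K} {Y : Submodule K (DD φ)}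
    (h1 : ∀ d ∈ Y, y φ * d ∈ Y) (h2 : ∀ d ∈ Y, (y φ)⁻¹ * d ∈ Y) {d : DD φ} (hd : d ∈ Y) (n : ℤ) :
    y φ ^ n * d ∈ Y := by
  have h0 : ∀ n : ℕ, y φ ^ n * d ∈ Y ∧ (y φ)⁻¹ ^ n * d ∈ Y := by
    intro n
    induction n with
    | zero => rw [pow_zero, pow_zero, one_mul]; exact ⟨hd, hd⟩
    | succ n ih =>
      rw [pow_succ', pow_succ', mul_assoc, mul_assoc]
      exact ⟨h1 _ ih.1, h2 _ ih.2⟩
  obtain ⟨m, rfl | rfl⟩ := n.eq_nat_or_neg
  · rw [zpow_natCast]; exact (h0 m).1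
  · rw [zpow_neg, zpow_natCast, ← inv_pow]; exact (h0 m).2

theorem del_zpow {K : Type} [Field K] {φ : RingAut K} (n j : ℤ) (d : DD φ) :
    del φ j (y φ ^ n * d) = (φ ^ n) (del φ (j - n) d) := by
  rw [y_pow, del_mo_mul, one_mul]

/-- LEMH -/
theorem lemh : LemhStmt := by
  intro hSep hSepl hPull F K _ _ _ S A μ μ' hμ hμ' hA hA' ρ G hG
  obtain ⟨U, rfl⟩ := hG
  set G : Matrix (Fin ρ) (Fin ρ) K := (U : Matrix (Fin ρ) (Fin ρ) K) with hGdef
  set H : Matrix (Fin ρ) (Fin ρ) K := ((U⁻¹ : (Matrix (Fin ρ) (Fin ρ) K)ˣ) :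
    Matrix (Fin ρ) (Fin ρ) K) with hHdef
  have hGH : G * H = 1 := U.mul_inv
  set G₂ : Matrix (Fin ρ) (Fin ρ) K := H.map (S.σ⁻¹ : RingAut K) with hG₂
  obtain ⟨ν₁, hν₁, h₁⟩ := hPull F K S μ hμ ρ G
  obtain ⟨ν₂, hν₂, h₂⟩ := hPull F K S.inv μ' hμ' ρ G₂
  refine ⟨fun p => min (ν₁ p) (ν₂ p), fwd_fin S ν₁ ν₂ hν₁ hν₂, ?_⟩
  intro Y s hY hst hst' π hπ0 hπy x hxA i p
  -- the functionals
  have hfun := fun k : Fin ρ => hSepl hSep K S.σ Y s hY ((LinearMap.proj k).comp π) (by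
    intro d hd
    rw [LinearMap.comp_apply, hπ0 d hd]
    rfl)
  have hmin : ng (min (ν₁ p) (ν₂ p)) ≤ S.v p (π x i) ∨ False := by
    left
    have hA1 : ng (ν₁ p) ≤ S.v p (π x i) := by
      set z : ℕ → Fin ρ → K := fun s => π ⟨y S.σ ^ (-(s : ℤ)) * (x : DD S.σ),
        zpow_mem hst hst' x.2 _⟩ with hz
      have hz0 : z 0 = π x := by
        rw [hz]
        show π _ = π x
        congr 1
        apply Subtype.ext
        show y S.σ ^ (-((0 : ℕ) : ℤ)) * (x : DD S.σ) = x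
        rw [Nat.cast_zero, neg_zero, zpow_zero, one_mul]
      rw [← hz0]
      apply h₁
      · intro s
        have h3 := hπy ⟨y S.σ ^ (-((s + 1 : ℕ) : ℤ)) * (x : DD S.σ), zpow_mem hst hst' x.2 _⟩
        show z s = act S.σ G (π _)
        rw [← h3, hz]
        show π _ = π _
        congr 1
        apply Subtype.ext
        show y S.σ ^ (-(s : ℤ)) * (x : DD S.σ) =
          y S.σ * (y S.σ ^ (-((s + 1 : ℕ) : ℤ)) * (x : DD S.σ))
        rw [← mul_assoc]
        congr 1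
        have h4 : y S.σ * y S.σ ^ (-((s + 1 : ℕ) : ℤ)) = y S.σ ^ (1 + (-((s + 1 : ℕ) : ℤ))) := by
          rw [zpow_add₀ y_ne_zero, zpow_one]
        rw [h4]
        congr 1
        push_cast
        ring
      · intro q
        have hk : ∀ k : Fin ρ, ∃ s0 : ℕ, ∀ s : ℕ, s0 ≤ s →
            ng (μ q) ≤ S.v ((S.τ ^ s) q) (z s k) := by
          intro k
          obtain ⟨⟨J, θ, hJ, hθ⟩, -⟩ := hfun k
          obtain ⟨s0, hs0⟩ := ord_large S J θ q
          refine ⟨s0, fun s hs => ?_⟩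
          have h3 : z s k = ∑ j ∈ J, θ j * del S.σ j (y S.σ ^ (-(s : ℤ)) * (x : DD S.σ)) :=
            hθ ⟨y S.σ ^ (-(s : ℤ)) * (x : DD S.σ), zpow_mem hst hst' x.2 _⟩
          rw [h3]
          apply ord_sum S _ J θ _ _ (hs0 s hs)
          intro j hj
          rw [del_zpow, v_σ_zpow, sub_neg_eq_add]
          have h4 : (S.τ ^ (-(s : ℤ))) ((S.τ ^ s) q) = q := by
            rw [zpow_neg, zpow_natCast]
            exact (S.τ ^ s).symm_apply_apply q
          rw [h4]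
          exact hA x hxA (j + s) (by have := hJ j hj; omega) q
        choose s0 hs0 using hk
        refine ⟨Finset.univ.sup s0, fun s hs k => hs0 k s ?_⟩
        exact (Finset.le_sup (Finset.mem_univ k)).trans hs
    have hA2 : ng (ν₂ p) ≤ S.v p (π x i) := by
      set z : ℕ → Fin ρ → K := fun s => π ⟨y S.σ ^ (s : ℤ) * (x : DD S.σ),
        zpow_mem hst hst' x.2 _⟩ with hz
      have hz0 : z 0 = π x := by
        rw [hz]
        show π _ = π x
        congr 1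
        apply Subtype.ext
        show y S.σ ^ ((0 : ℕ) : ℤ) * (x : DD S.σ) = x
        rw [Nat.cast_zero, zpow_zero, one_mul]
      rw [← hz0]
      refine h₂ z ?_ ?_ i p
      · intro s
        have h3 := hπy ⟨y S.σ ^ (s : ℤ) * (x : DD S.σ), zpow_mem hst hst' x.2 _⟩
        have h5 : z (s + 1) = act S.σ G (z s) := by
          rw [hz]
          show π _ = act S.σ G (π _)
          rw [← h3]
          congr 1
          apply Subtype.ext
          show y S.σ ^ ((s + 1 : ℕ) : ℤ) * (x : DD S.σ) =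
            y S.σ * (y S.σ ^ (s : ℤ) * (x : DD S.σ))
          rw [← mul_assoc]
          congr 1
          have h4 : y S.σ * y S.σ ^ (s : ℤ) = y S.σ ^ (1 + (s : ℤ)) := by
            rw [zpow_add₀ y_ne_zero, zpow_one]
          rw [h4]
          congr 1
          push_cast
          ring
        rw [h5]
        unfold act
        have h6 : (fun i => (S.inv.σ) (Matrix.vecMul (fun i => S.σ (z s i)) G i)) =
            Matrix.vecMul (z s) (G.map (S.σ⁻¹ : RingAut K)) := by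
          ext k
          show (S.σ⁻¹ : RingAut K) (∑ l, S.σ (z s l) * G l k) =
            ∑ l, z s l * (S.σ⁻¹ : RingAut K) (G l k)
          rw [map_sum]
          refine Finset.sum_congr rfl fun l _ => ?_
          rw [map_mul]
          congr 1
          exact S.σ.symm_apply_apply _
        rw [h6, Matrix.vecMul_vecMul, hG₂, ← Matrix.map_mul, hGH]
        rw [Matrix.map_one _ (map_zero _) (map_one _), Matrix.vecMul_one]
      · intro q
        have hk : ∀ k : Fin ρ, ∃ s0 : ℕ, ∀ s : ℕ, s0 ≤ s →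
            ng (μ' q) ≤ S.inv.v ((S.inv.τ ^ s) q) (z s k) := by
          intro k
          obtain ⟨-, ⟨J, θ, hJ, hθ⟩⟩ := hfun k
          obtain ⟨s0, hs0⟩ := ord_large S.inv J θ q
          refine ⟨s0, fun s hs => ?_⟩
          have h3 : z s k = ∑ j ∈ J, θ j * del S.σ j (y S.σ ^ (s : ℤ) * (x : DD S.σ)) :=
            hθ ⟨y S.σ ^ (s : ℤ) * (x : DD S.σ), zpow_mem hst hst' x.2 _⟩
          rw [h3]
          apply ord_sum S.inv _ J θ _ _ (hs0 s hs)
          intro j hj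
          rw [del_zpow]
          show ng (μ' q) ≤ S.v ((S.τ⁻¹ ^ s) q) _
          rw [v_σ_zpow]
          have h4 : (S.τ ^ (s : ℤ)) ((S.τ⁻¹ ^ s) q) = q := by
            rw [inv_pow, zpow_natCast]
            exact (S.τ ^ s).apply_symm_apply q
          rw [h4]
          exact hA' x hxA (j - s) (by have := hJ j hj; omega) q
        choose s0 hs0 using hk
        refine ⟨Finset.univ.sup s0, fun s hs k => hs0 k s ?_⟩
        exact (Finset.le_sup (Finset.mem_univ k)).trans hs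
    rcases min_choice (ν₁ p) (ν₂ p) with h | h
    · rw [h]
      exact hA1
    · rw [h]
      exact hA2
  exact hmin.resolve_right id

end

end Pool.Agent.Q2N.H47
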