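import Pool.Agent.Q2N.Stmts

/-!
# LEMMA T: finitely many types of simple polar parts
-/

set_option autoImplicit false

open Module

namespace Pool.Agent.Q2N.H47

open Pool.Agent.UW

section

variable {K : Type} [Field K] {φ : RingAut K}

theorem y_smul (f : K) (d : DD φ) : y φ * (f • d) = φ f • (y φ * d) := by
  rw [smul_eq, smul_eq, ← mul_assoc, y_mul_ι, mul_assoc]

theorem y_inv_smul (f : K) (d : DD φ) : (y φ)⁻¹ * (f • d) = φ⁻¹ f • ((y φ)⁻¹ * d) := by
  have h1 : y φ * (φ⁻¹ f • ((y φ)⁻¹ * d)) = f • d := by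
    rw [y_smul, mul_inv_cancel_left₀ y_ne_zero]
    congr 1
    exact φ.apply_symm_apply f
  rw [← h1, inv_mul_cancel_left₀ y_ne_zero]

theorem smul_mul' (f : K) (d w : DD φ) : (f • d) * w = f • (d * w) := by
  rw [smul_eq, smul_eq, mul_assoc]

/-- stable subspaces -/
def Stb (Y : Submodule K (DD φ)) : Prop := ∀ d ∈ Y, y φ * d ∈ Y ∧ (y φ)⁻¹ * d ∈ Y

theorem Stb.zpow {Y : Submodule K (DD φ)} (h : Stb Y) {d : DD φ} (hd : d ∈ Y) (n : ℤ) :
    y φ ^ n * d ∈ Y := by
  have h0 : ∀ n : ℕ, y φ ^ n * d ∈ Y ∧ (y φ)⁻¹ ^ n * d ∈ Y := by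
    intro n
    induction n with
    | zero => rw [pow_zero, pow_zero, one_mul]; exact ⟨hd, hd⟩
    | succ n ih =>
      rw [pow_succ', pow_succ', mul_assoc, mul_assoc]
      exact ⟨(h _ ih.1).1, (h _ ih.2).2⟩
  obtain ⟨m, rfl | rfl⟩ := n.eq_nat_or_neg
  · rw [zpow_natCast]; exact (h0 m).1
  · rw [zpow_neg, zpow_natCast, ← inv_pow]; exact (h0 m).2

theorem mo_mem_iff (f : K) (n : ℤ) (d : DD φ) : mo φ f n * d = f • (y φ ^ n * d) := by
  rw [mo_eq, smul_eq, mul_assoc]

theorem coeff_ψ_sum {ι' : Type} (s : Finset ι') (g : ι' → DD φ) (i : ℤ) :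
    (ψ φ (∑ k ∈ s, g k)).coeff i = ∑ k ∈ s, (ψ φ (g k)).coeff i := by
  rw [map_sum, SkewLaurent.coeff_sum]

/-- a Laurent polynomial is the sum of its monomials -/
theorem RR_sum {P : DD φ} {a b : ℤ} (_ : P ∈ RR φ)
    (hab : ∀ i, (i < a ∨ b < i) → (ψ φ P).coeff i = 0) :
    P = ∑ i ∈ Finset.Icc a b, mo φ ((ψ φ P).coeff i) i := by
  apply sub_eq_zero.1
  apply ψ_inj
  ext j
  rw [map_sub, SkewLaurent.coeff_sub, coeff_ψ_sum, SkewLaurent.coeff_zero]
  by_cases hj : j ∈ Finset.Icc a b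
  · rw [Finset.sum_eq_single j]
    · rw [ψ_mo, sgl_coeff, if_pos rfl, sub_self]
    · intro i _ hij
      rw [ψ_mo, sgl_coeff, if_neg (Ne.symm hij)]
    · intro h'
      exact absurd hj h'
  · rw [Finset.sum_eq_zero, sub_zero]
    · apply hab
      rw [Finset.mem_Icc] at hj
      lia
    · intro i hi
      rw [ψ_mo, sgl_coeff, if_neg]
      rintro rfl
      exact hj hi

theorem RR_bd {P : DD φ} (h : P ∈ RR φ) :
    ∃ a b : ℤ, ∀ i, (i < a ∨ b < i) → (ψ φ P).coeff i = 0 := lau_supp (φ := φ) (z := P.1) h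

theorem Stb.mul {Y : Submodule K (DD φ)} (h : Stb Y) {d r : DD φ} (hd : d ∈ Y) (hr : r ∈ RR φ) :
    r * d ∈ Y := by
  obtain ⟨a, b, hab⟩ := RR_bd hr
  rw [RR_sum hr hab, Finset.sum_mul]
  apply Submodule.sum_mem
  intro i _
  rw [mo_mem_iff]
  exact Submodule.smul_mem _ _ (h.zpow hd i)

theorem y_mem_RR : y φ ∈ RR φ := mo_mem 1 1

theorem y_inv_mem_RR : (y φ)⁻¹ ∈ RR φ := by
  rw [← mo_inv_one]
  exact mo_mem 1 (-1)

theorem stb_Rs : Stb (Rs φ) := by
  intro d hd
  exact ⟨Subring.mul_mem _ y_mem_RR hd, Subring.mul_mem _ y_inv_mem_RR hd⟩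

theorem Stb.sup {Y Z : Submodule K (DD φ)} (hY : Stb Y) (hZ : Stb Z) : Stb (Y ⊔ Z) := by
  intro d hd
  obtain ⟨a, ha, b, hb, rfl⟩ := Submodule.mem_sup.1 hd
  rw [mul_add, mul_add]
  exact ⟨Submodule.add_mem_sup (hY a ha).1 (hZ b hb).1,
    Submodule.add_mem_sup (hY a ha).2 (hZ b hb).2⟩

theorem stb_sup_span {W : Submodule K (DD φ)} (hW : Stb W) {S : Set (DD φ)}
    (h : ∀ s ∈ S, y φ * s ∈ W ⊔ Submodule.span K S ∧ (y φ)⁻¹ * s ∈ W ⊔ Submodule.span K S) :
    Stb (W ⊔ Submodule.span K S) := by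
  have h1 : ∀ d ∈ Submodule.span K S, y φ * d ∈ W ⊔ Submodule.span K S ∧
      (y φ)⁻¹ * d ∈ W ⊔ Submodule.span K S := by
    intro d hd
    induction hd using Submodule.span_induction with
    | mem x hx => exact h x hx
    | zero => rw [mul_zero, mul_zero]; exact ⟨Submodule.zero_mem _, Submodule.zero_mem _⟩
    | add x z _ _ hx hz =>
      rw [mul_add, mul_add]
      exact ⟨Submodule.add_mem _ hx.1 hz.1, Submodule.add_mem _ hx.2 hz.2⟩
    | smul f x _ hx =>
      rw [y_smul, y_inv_smul]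
      exact ⟨Submodule.smul_mem _ _ hx.1, Submodule.smul_mem _ _ hx.2⟩
  intro d hd
  obtain ⟨a, ha, b, hb, rfl⟩ := Submodule.mem_sup.1 hd
  rw [mul_add, mul_add]
  exact ⟨Submodule.add_mem _ (Submodule.mem_sup_left (hW a ha).1) (h1 b hb).1,
    Submodule.add_mem _ (Submodule.mem_sup_left (hW a ha).2) (h1 b hb).2⟩

/-- finitely generated modulo the Laurent polynomials -/
def Fgm (Y : Submodule K (DD φ)) : Prop :=
  ∃ s : Finset (DD φ), Y ≤ Rs φ ⊔ Submodule.span K (s : Set (DD φ))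

theorem Fgm.mono {Y Z : Submodule K (DD φ)} (h : Fgm Z) (hYZ : Y ≤ Z) : Fgm Y := by
  obtain ⟨s, hs⟩ := h
  exact ⟨s, hYZ.trans hs⟩

theorem Fgm.sup {Y Z : Submodule K (DD φ)} (hY : Fgm Y) (hZ : Fgm Z) : Fgm (Y ⊔ Z) := by
  classical
  obtain ⟨s, hs⟩ := hY
  obtain ⟨t, ht⟩ := hZ
  refine ⟨s ∪ t, sup_le (hs.trans ?_) (ht.trans ?_)⟩
  · rw [Finset.coe_union]
    exact sup_le_sup_left (Submodule.span_mono Set.subset_union_left) _
  · rw [Finset.coe_union]
    exact sup_le_sup_left (Submodule.span_mono Set.subset_union_right) _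

/-- every element lies in a stable subspace, finitely generated modulo the Laurent polynomials -/
theorem exists_stb (v : DD φ) : ∃ U : Submodule K (DD φ), Stb U ∧ Rs φ ≤ U ∧ Fgm U ∧ v ∈ U := by
  classical
  obtain ⟨P, hP, hP0, hPv⟩ := left_den v
  have hψ : ψ φ P ≠ 0 := fun h => hP0 (ψ_inj h)
  have hψ' : ψ' φ P ≠ 0 := fun h => hP0 (ψ'_inj h)
  obtain ⟨a, ha, ha0⟩ := SkewLaurent.exists_order hψ
  obtain ⟨b', hb, hb0⟩ := SkewLaurent.exists_order hψ'
  obtain ⟨b, rfl⟩ : ∃ b, b' = -b := ⟨-b', by ring⟩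
  rw [mem_RR.1 hP, neg_neg] at hb0
  have hab : ∀ i, (i < a ∨ b < i) → (ψ φ P).coeff i = 0 := by
    rintro i (hi | hi)
    · exact ha i hi
    · have h1 := hb (-i) (by lia)
      rwa [mem_RR.1 hP, neg_neg] at h1
  have hle : a ≤ b := by
    by_contra h
    exact ha0 (hab a (Or.inr (by lia)))
  set p : ℤ → K := fun i => (ψ φ P).coeff i with hp
  set S : Set (DD φ) := ↑((Finset.Ico a b).image fun i => y φ ^ i * v) with hS
  have hSm : ∀ i ∈ Finset.Ico a b, y φ ^ i * v ∈ S := by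
    intro i hi
    rw [hS]
    exact Finset.mem_coe.2 (Finset.mem_image_of_mem _ hi)
  have hsum : P * v = ∑ i ∈ Finset.Icc a b, p i • (y φ ^ i * v) := by
    conv_lhs => rw [RR_sum hP hab, Finset.sum_mul]
    exact Finset.sum_congr rfl fun i _ => mo_mem_iff _ _ _
  set U := Rs φ ⊔ Submodule.span K S with hU
  have hyb : y φ ^ b * v ∈ U := by
    have h1 : p b • (y φ ^ b * v) = P * v - ∑ i ∈ Finset.Ico a b, p i • (y φ ^ i * v) := by
      rw [hsum, ← Finset.Ico_insert_right hle, Finset.sum_insert (by simp)]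
      abel
    have h2 : p b • (y φ ^ b * v) ∈ U := by
      rw [h1]
      refine Submodule.sub_mem _ (Submodule.mem_sup_left hPv) (Submodule.sum_mem _ ?_)
      intro i hi
      exact Submodule.mem_sup_right (Submodule.smul_mem _ _ (Submodule.subset_span (hSm i hi)))
    have h3 := Submodule.smul_mem U (p b)⁻¹ h2
    rwa [smul_smul, inv_mul_cancel₀ hb0, one_smul] at h3
  have hya : y φ ^ (a - 1) * v ∈ U := by
    have h0 : (y φ)⁻¹ * (P * v) = ∑ i ∈ Finset.Icc a b, φ⁻¹ (p i) • (y φ ^ (i - 1) * v) := by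
      rw [hsum, Finset.mul_sum]
      refine Finset.sum_congr rfl fun i _ => ?_
      rw [y_inv_smul, ← mul_assoc]
      congr 2
      rw [sub_eq_add_neg, add_comm, zpow_add₀ y_ne_zero, zpow_neg, zpow_one]
    have h1 : φ⁻¹ (p a) • (y φ ^ (a - 1) * v) =
        (y φ)⁻¹ * (P * v) - ∑ i ∈ Finset.Ioc a b, φ⁻¹ (p i) • (y φ ^ (i - 1) * v) := by
      rw [h0, ← Finset.Ioc_insert_left hle, Finset.sum_insert (by simp)]
      abel
    have h2 : φ⁻¹ (p a) • (y φ ^ (a - 1) * v) ∈ U := by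
      rw [h1]
      refine Submodule.sub_mem _ (Submodule.mem_sup_left (Subring.mul_mem _ y_inv_mem_RR hPv))
        (Submodule.sum_mem _ ?_)
      intro i hi
      rw [Finset.mem_Ioc] at hi
      exact Submodule.mem_sup_right (Submodule.smul_mem _ _ (Submodule.subset_span
        (hSm (i - 1) (Finset.mem_Ico.2 (by lia)))))
    have h3 := Submodule.smul_mem U (φ⁻¹ (p a))⁻¹ h2
    have h4 : φ⁻¹ (p a) ≠ 0 := by
      intro h
      exact ha0 ((map_eq_zero_iff _ (φ⁻¹ : RingAut K).injective).1 h)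
    rwa [smul_smul, inv_mul_cancel₀ h4, one_smul] at h3
  have hst : Stb U := by
    apply stb_sup_span stb_Rs
    intro s hs
    obtain ⟨i, hi, rfl⟩ := Finset.mem_image.1 (Finset.mem_coe.1 hs)
    rw [Finset.mem_Ico] at hi
    constructor
    · have h1 : y φ * (y φ ^ i * v) = y φ ^ (i + 1) * v := by
        rw [← mul_assoc, add_comm, zpow_add₀ y_ne_zero, zpow_one]
      rw [h1]
      rcases eq_or_lt_of_le (show i + 1 ≤ b by lia) with h | h
      · rw [h]
        exact hyb
      · exact Submodule.mem_sup_right (Submodule.subset_span (hSm _ (Finset.mem_Ico.2 (by lia))))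
    · have h1 : (y φ)⁻¹ * (y φ ^ i * v) = y φ ^ (i - 1) * v := by
        rw [← mul_assoc, sub_eq_add_neg, add_comm, zpow_add₀ y_ne_zero, zpow_neg, zpow_one]
      rw [h1]
      rcases eq_or_lt_of_le (show a ≤ i by lia) with h | h
      · rw [← h]
        exact hya
      · exact Submodule.mem_sup_right (Submodule.subset_span (hSm _ (Finset.mem_Ico.2 (by lia))))
  refine ⟨U, hst, le_sup_left, ⟨_, le_rfl⟩, ?_⟩
  have h1 := hst.zpow hyb (-b)
  rwa [← mul_assoc, ← zpow_add₀ y_ne_zero, neg_add_cancel, zpow_zero, one_mul] at h1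

theorem exists_stb_finset (V : Finset (DD φ)) :
    ∃ U : Submodule K (DD φ), Stb U ∧ Rs φ ≤ U ∧ Fgm U ∧ ∀ v ∈ V, v ∈ U := by
  classical
  induction V using Finset.induction_on with
  | empty => exact ⟨Rs φ, stb_Rs, le_rfl, ⟨∅, le_sup_left⟩, by simp⟩
  | insert v V _ ih =>
    obtain ⟨U, h1, h2, h3, h4⟩ := ih
    obtain ⟨W, g1, g2, g3, g4⟩ := exists_stb v
    refine ⟨U ⊔ W, h1.sup g1, h2.trans le_sup_left, h3.sup g3, ?_⟩
    intro u hu
    rcases Finset.mem_insert.1 hu with rfl | hu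
    · exact Submodule.mem_sup_right g4
    · exact Submodule.mem_sup_left (h4 u hu)

/-- types of modules: the invertible matrices -/
structure Ty (K : Type) [Field K] where
  ρ : ℕ
  G : Matrix (Fin ρ) (Fin ρ) K
  unit : IsUnit G

/-- `Z / W` has the type `t` -/
def Typed (t : Ty K) (W Z : Submodule K (DD φ)) : Prop :=
  ∃ π : DD φ →ₗ[K] (Fin t.ρ → K), (∀ d ∈ Z, π d = 0 ↔ d ∈ W) ∧
    ∀ d ∈ Z, π (y φ * d) = act φ t.G (π d)

/-- chains with simple steps of types in a list -/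
inductive Ch (T : List (Ty K)) : Submodule K (DD φ) → Prop
  | base : Ch T (Rs φ)
  | step (Z Z' : Submodule K (DD φ)) (t : Ty K) : t ∈ T → Ch T Z → Stb Z' → Z ≤ Z' →
      (∀ X, Stb X → Z ≤ X → X ≤ Z' → X = Z ∨ X = Z') → Typed t Z Z' → Ch T Z'

theorem Ch.mono {T T' : List (Ty K)} (h : ∀ t ∈ T, t ∈ T') {Z : Submodule K (DD φ)}
    (hZ : Ch T Z) : Ch T' Z := by
  induction hZ with
  | base => exact Ch.base
  | step Z Z' t ht _ h1 h2 h3 h4 ih => exact Ch.step Z Z' t (h t ht) ih h1 h2 h3 h4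

theorem Ch.stb {T : List (Ty K)} {Z : Submodule K (DD φ)} (hZ : Ch T Z) : Stb Z := by
  cases hZ with
  | base => exact stb_Rs
  | step Z Z' t _ _ h1 _ _ _ => exact h1

theorem Ch.le {T : List (Ty K)} {Z : Submodule K (DD φ)} (hZ : Ch T Z) : Rs φ ≤ Z := by
  induction hZ with
  | base => exact le_rfl
  | step Z Z' t _ _ _ h2 _ _ ih => exact ih.trans h2

variable {n : ℕ}

theorem act_add (G : Matrix (Fin n) (Fin n) K) (a b : Fin n → K) :
    act φ G (a + b) = act φ G a + act φ G b := by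
  unfold act
  rw [← Matrix.add_vecMul]
  congr 1
  ext i
  exact map_add φ _ _

theorem act_smul (G : Matrix (Fin n) (Fin n) K) (f : K) (a : Fin n → K) :
    act φ G (f • a) = φ f • act φ G a := by
  unfold act
  rw [← Matrix.smul_vecMul]
  congr 1
  ext i
  exact map_mul φ _ _

theorem act_zero (G : Matrix (Fin n) (Fin n) K) : act φ G (0 : Fin n → K) = 0 := by
  unfold act
  have h : (fun i => φ ((0 : Fin n → K) i)) = 0 := by
    ext i
    exact map_zero φ
  rw [h, Matrix.zero_vecMul]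

theorem act_sum {ι' : Type} (G : Matrix (Fin n) (Fin n) K) (s : Finset ι') (a : ι' → Fin n → K) :
    act φ G (∑ k ∈ s, a k) = ∑ k ∈ s, act φ G (a k) := by
  classical
  induction s using Finset.induction_on with
  | empty => rw [Finset.sum_empty, Finset.sum_empty, act_zero]
  | insert k s hk ih => rw [Finset.sum_insert hk, Finset.sum_insert hk, act_add, ih]

theorem act_single (G : Matrix (Fin n) (Fin n) K) (i : Fin n) :
    act φ G (Pi.single i 1) = G i := by
  unfold act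
  have h : (fun j => φ ((Pi.single i 1 : Fin n → K) j)) = Pi.single i 1 := by
    ext j
    by_cases hj : j = i
    · subst hj
      rw [Pi.single_eq_same, map_one]
    · rw [Pi.single_eq_of_ne hj, map_zero]
  rw [h, Matrix.single_one_vecMul]
  rfl

/-- the quotient of two stable subspaces has a type -/
theorem exists_type {W Z : Submodule K (DD φ)} (hW : Stb W) (hZ : Stb Z) (hWZ : W ≤ Z)
    (hR : Rs φ ≤ W) (hf : Fgm Z) : ∃ t : Ty K, Typed t W Z := by
  classical
  obtain ⟨s, hs⟩ := hf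
  set E := Z.map W.mkQ with hE
  have hfin : FiniteDimensional K ↥E := by
    have h1 : E ≤ (Submodule.span K (s : Set (DD φ))).map W.mkQ := by
      rintro _ ⟨d, hd, rfl⟩
      obtain ⟨a, ha, b, hb, rfl⟩ := Submodule.mem_sup.1 (hs hd)
      refine ⟨b, hb, ?_⟩
      rw [map_add, Submodule.mkQ_apply W a, (Submodule.Quotient.mk_eq_zero W).2 (hR ha), zero_add]
    have h2 : FiniteDimensional K ↥((Submodule.span K (s : Set (DD φ))).map W.mkQ) := by
      have := FiniteDimensional.span_finset K s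
      infer_instance
    exact Submodule.finiteDimensional_of_le h1
  set n := finrank K ↥E with hn
  let e : ↥E ≃ₗ[K] (Fin n → K) := (Module.finBasisOfFinrankEq K ↥E hn.symm).equivFun
  obtain ⟨g, hg⟩ : ∃ g : (DD φ ⧸ W) →ₗ[K] (Fin n → K), g.comp E.subtype = e.toLinearMap :=
    LinearMap.exists_extend e.toLinearMap
  have hge : ∀ x : ↥E, g x = e x := fun x => LinearMap.congr_fun hg x
  set π : DD φ →ₗ[K] (Fin n → K) := g.comp W.mkQ with hπ
  have hπZ : ∀ (d : DD φ) (hd : d ∈ Z), π d = e ⟨W.mkQ d, Submodule.mem_map_of_mem hd⟩ := by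
    intro d hd
    exact hge ⟨W.mkQ d, Submodule.mem_map_of_mem hd⟩
  have hker : ∀ d ∈ Z, (π d = 0 ↔ d ∈ W) := by
    intro d hd
    rw [hπZ d hd, LinearEquiv.map_eq_zero_iff]
    constructor
    · intro h
      exact (Submodule.Quotient.mk_eq_zero W).1 (congrArg Subtype.val h)
    · intro h
      exact Subtype.ext ((Submodule.Quotient.mk_eq_zero W).2 h)
  have hsurj : ∀ i : Fin n, ∃ z ∈ Z, π z = Pi.single i 1 := by
    intro i
    obtain ⟨d, hd, h⟩ := (e.symm (Pi.single i 1)).2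
    refine ⟨d, hd, ?_⟩
    rw [hπZ d hd]
    have h1 : (⟨W.mkQ d, Submodule.mem_map_of_mem hd⟩ : ↥E) = e.symm (Pi.single i 1) :=
      Subtype.ext h
    rw [h1, LinearEquiv.apply_symm_apply]
  choose z hzZ hz using hsurj
  set G : Matrix (Fin n) (Fin n) K := fun i => π (y φ * z i) with hG
  have heq : ∀ d ∈ Z, π (y φ * d) = act φ G (π d) := by
    intro d hd
    set w := d - ∑ i, π d i • z i with hw
    have hwW : w ∈ W := by
      rw [← hker w (Submodule.sub_mem _ hd (Submodule.sum_mem _ fun i _ =>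
        Submodule.smul_mem _ _ (hzZ i)))]
      rw [hw, map_sub, map_sum]
      simp only [map_smul, hz]
      rw [sub_eq_zero]
      ext j
      rw [Finset.sum_apply]
      simp only [Pi.smul_apply, smul_eq_mul]
      rw [Finset.sum_eq_single j]
      · rw [Pi.single_eq_same, mul_one]
      · intro i _ hij
        rw [Pi.single_eq_of_ne (Ne.symm hij), mul_zero]
      · intro h
        exact absurd (Finset.mem_univ _) h
    have h1 : π (y φ * w) = 0 := (hker _ (hZ _ (hWZ hwW)).1).2 (hW _ hwW).1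
    have h2 : d = w + ∑ i, π d i • z i := by
      rw [hw]
      abel
    have h3 : π d = ∑ i, π d i • (Pi.single i 1 : Fin n → K) := by
      ext j
      rw [Finset.sum_apply]
      simp only [Pi.smul_apply, smul_eq_mul]
      rw [Finset.sum_eq_single j]
      · rw [Pi.single_eq_same, mul_one]
      · intro i _ hij
        rw [Pi.single_eq_of_ne (Ne.symm hij), mul_zero]
      · intro h
        exact absurd (Finset.mem_univ _) h
    conv_lhs => rw [h2, mul_add, map_add, h1, zero_add, Finset.mul_sum, map_sum]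
    conv_rhs => rw [h3, act_sum]
    refine Finset.sum_congr rfl fun i _ => ?_
    rw [y_smul, map_smul, act_smul, act_single]
  refine ⟨⟨n, G, ?_⟩, π, hker, heq⟩
  set H : Matrix (Fin n) (Fin n) K := fun i j => φ (π ((y φ)⁻¹ * z i) j) with hH
  have hHG : H * G = 1 := by
    ext i j
    have h1 := heq _ (hZ _ (hzZ i)).2
    rw [mul_inv_cancel_left₀ y_ne_zero, hz] at h1
    have h2 := congrFun h1 j
    rw [Matrix.mul_apply, Matrix.one_apply]
    have h3 : (act φ G (π ((y φ)⁻¹ * z i))) j = ∑ k, H i k * G k j := rfl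
    rw [← h3, ← h2, Pi.single_apply]
    by_cases hij : i = j
    · rw [if_pos hij, if_pos hij.symm]
    · rw [if_neg hij, if_neg (Ne.symm hij)]
  exact IsUnit.of_mul_eq_one_right H hHG

/-- rank modulo the Laurent polynomials -/
noncomputable def rk (Z : Submodule K (DD φ)) : ℕ := finrank K ↥(Z.map (Rs φ).mkQ)

theorem rk_fd {Z : Submodule K (DD φ)} (hf : Fgm Z) : FiniteDimensional K ↥(Z.map (Rs φ).mkQ) := by
  obtain ⟨s, hs⟩ := hf
  have h1 : Z.map (Rs φ).mkQ ≤ (Submodule.span K (s : Set (DD φ))).map (Rs φ).mkQ := by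
    rintro _ ⟨d, hd, rfl⟩
    obtain ⟨a, ha, b, hb, rfl⟩ := Submodule.mem_sup.1 (hs hd)
    refine ⟨b, hb, ?_⟩
    rw [map_add, Submodule.mkQ_apply _ a, (Submodule.Quotient.mk_eq_zero _).2 ha, zero_add]
  have h2 : FiniteDimensional K ↥((Submodule.span K (s : Set (DD φ))).map (Rs φ).mkQ) := by
    have := FiniteDimensional.span_finset K s
    infer_instance
  exact Submodule.finiteDimensional_of_le h1

theorem rk_lt {W Z : Submodule K (DD φ)} (hR : Rs φ ≤ W) (h : W < Z) (hf : Fgm Z) :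
    rk W < rk Z := by
  have := rk_fd hf
  apply Submodule.finrank_lt_finrank_of_lt
  refine lt_of_le_of_ne (Submodule.map_mono h.le) ?_
  intro he
  apply h.ne
  have h1 := congrArg (Submodule.comap (Rs φ).mkQ) he
  rw [Submodule.comap_map_mkQ, Submodule.comap_map_mkQ, sup_eq_right.2 hR,
    sup_eq_right.2 (hR.trans h.le)] at h1
  exact h1

theorem exists_chain (Z : Submodule K (DD φ)) (hZ : Stb Z) (hf : Fgm Z) :
    ∀ (n : ℕ) (W : Submodule K (DD φ)) (T : List (Ty K)), rk Z - rk W = n → W ≤ Z → Ch T W →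
      ∃ T' : List (Ty K), Ch T' Z := by
  intro n
  induction n using Nat.strong_induction_on with
  | _ n ih =>
    intro W T hn hWZ hW
    rcases eq_or_lt_of_le hWZ with rfl | hlt
    · exact ⟨T, hW⟩
    · have hex : ∃ r : ℕ, ∃ X : Submodule K (DD φ), Stb X ∧ W < X ∧ X ≤ Z ∧ rk X = r :=
        ⟨rk Z, Z, hZ, hlt, le_rfl, rfl⟩
      classical
      obtain ⟨X, hX, hWX, hXZ, hr⟩ := Nat.find_spec hex
      have hmin : ∀ Y, Stb Y → W ≤ Y → Y ≤ X → Y = W ∨ Y = X := by
        intro Y hY h1 h2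
        rcases eq_or_lt_of_le h1 with h3 | h3
        · exact Or.inl h3.symm
        · rcases eq_or_lt_of_le h2 with h4 | h4
          · exact Or.inr h4
          · exfalso
            have h5 := rk_lt (hW.le.trans h1) h4 (hf.mono hXZ)
            have h6 := Nat.find_min' hex ⟨Y, hY, h3, h2.trans hXZ, rfl⟩
            omega
      obtain ⟨t, ht⟩ := exists_type hW.stb hX hWX.le hW.le (hf.mono hXZ)
      have hch : Ch (t :: T) X := Ch.step W X t List.mem_cons_self
        (hW.mono fun u hu => List.mem_cons_of_mem _ hu) hX hWX.le hmin ht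
      have h7 := rk_lt hW.le hWX (hf.mono hXZ)
      have h8 := rk_lt hW.le hlt hf
      exact ih (rk Z - rk X) (by omega) X (t :: T) rfl hXZ hch

/-- subspaces all of whose elements are detected by the types in the list -/
def Good (T : List (Ty K)) (W : Submodule K (DD φ)) : Prop :=
  Stb W ∧ Rs φ ≤ W ∧ Fgm W ∧ ∀ b ∈ W, b ∉ RR φ → ∃ t ∈ T, ∃ Y : Submodule K (DD φ), Stb Y ∧ Fgm Y ∧
    b ∈ Y ∧ ∃ π : DD φ →ₗ[K] (Fin t.ρ → K), (∀ d ∈ RR φ, π d = 0) ∧
      (∀ d ∈ Y, π (y φ * d) = act φ t.G (π d)) ∧ π b ≠ 0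

/-- right multiplication -/
noncomputable def mR (w : DD φ) : DD φ →ₗ[K] DD φ where
  toFun d := d * w
  map_add' := fun a b => add_mul a b w
  map_smul' := fun f d => smul_mul' f d w

theorem mR_apply (w d : DD φ) : mR w d = d * w := rfl

theorem stb_map {Z : Submodule K (DD φ)} (hZ : Stb Z) (w : DD φ) : Stb (Z.map (mR w)) := by
  rintro _ ⟨d, hd, rfl⟩
  rw [mR_apply, ← mul_assoc, ← mul_assoc]
  exact ⟨⟨_, (hZ d hd).1, rfl⟩, ⟨_, (hZ d hd).2, rfl⟩⟩

theorem fgm_map {W Z : Submodule K (DD φ)} (hW : Stb W) (hfW : Fgm W) (hZ : Fgm Z) {w : DD φ}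
    (hw : w ∈ W) : Fgm (W ⊔ Z.map (mR w)) := by
  classical
  obtain ⟨s, hs⟩ := hfW
  obtain ⟨t, ht⟩ := hZ
  refine ⟨s ∪ t.image (fun d => d * w), sup_le (hs.trans ?_) ?_⟩
  · rw [Finset.coe_union]
    exact sup_le_sup_left (Submodule.span_mono Set.subset_union_left) _
  · rintro _ ⟨d, hd, rfl⟩
    obtain ⟨a, ha, b, hb, rfl⟩ := Submodule.mem_sup.1 (ht hd)
    rw [map_add]
    apply Submodule.add_mem
    · have h1 : mR w a ∈ W := hW.mul hw ha
      have h2 := hs h1
      have h3 : Rs φ ⊔ Submodule.span K (s : Set (DD φ)) ≤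
          Rs φ ⊔ Submodule.span K ((s ∪ t.image (fun d => d * w) : Finset (DD φ)) : Set (DD φ)) := by
        rw [Finset.coe_union]
        exact sup_le_sup_left (Submodule.span_mono Set.subset_union_left) _
      exact h3 h2
    · apply Submodule.mem_sup_right
      have h1 : (Submodule.span K (t : Set (DD φ))).map (mR w) ≤
          Submodule.span K (↑(s ∪ t.image (fun d => d * w)) : Set (DD φ)) := by
        rw [Submodule.map_span, Submodule.span_le]
        rintro _ ⟨x, hx, rfl⟩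
        apply Submodule.subset_span
        rw [Finset.coe_union, Finset.coe_image]
        exact Or.inr ⟨x, hx, rfl⟩
      exact h1 ⟨b, hb, rfl⟩

/-- adding `Z w` for a chain `Z` to a good subspace containing `w` -/
theorem Good.add_chain {T : List (Ty K)} {W : Submodule K (DD φ)} (hW : Good T W) {w : DD φ}
    (hw : w ∈ W) {Z : Submodule K (DD φ)} (hZ : Ch T Z) (hf : Fgm Z) :
    Good T (W ⊔ Z.map (mR w)) := by
  obtain ⟨hst, hR, hfW, hgood⟩ := hW
  induction hZ with
  | base =>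
    have h1 : W ⊔ (Rs φ).map (mR w) = W := by
      rw [sup_eq_left]
      rintro _ ⟨d, hd, rfl⟩
      exact hst.mul hw hd
    rw [h1]
    exact ⟨hst, hR, hfW, hgood⟩
  | step Z Z' t ht hZ hZ' hle hcov htyp ih =>
    have ih' := ih (hf.mono hle)
    set W₁ := W ⊔ Z.map (mR w) with hW₁
    have hst₁ : Stb W₁ := hst.sup (stb_map hZ.stb w)
    have hsup : W ⊔ Z'.map (mR w) = W₁ ⊔ Z'.map (mR w) := by
      apply le_antisymm
      · exact sup_le_sup_right le_sup_left _
      · exact sup_le (sup_le_sup_left (Submodule.map_mono hle) _) le_sup_right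
    have hX : Stb (Z' ⊓ W₁.comap (mR w)) := by
      rintro d ⟨hd1, hd2⟩
      have hd3 : d * w ∈ W₁ := hd2
      refine ⟨⟨(hZ' d hd1).1, ?_⟩, ⟨(hZ' d hd1).2, ?_⟩⟩
      · show y φ * d * w ∈ W₁
        rw [mul_assoc]
        exact (hst₁ _ hd3).1
      · show (y φ)⁻¹ * d * w ∈ W₁
        rw [mul_assoc]
        exact (hst₁ _ hd3).2
    have hstb : Stb (W₁ ⊔ Z'.map (mR w)) := hst₁.sup (stb_map hZ' w)
    have hfgm : Fgm (W₁ ⊔ Z'.map (mR w)) := fgm_map hst₁ ih'.2.2.1 hf (Submodule.mem_sup_left hw)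
    rw [hsup]
    rcases hcov _ hX (le_inf hle (by
        intro d hd
        exact Submodule.mem_sup_right ⟨d, hd, rfl⟩)) inf_le_left with h | h
    · refine ⟨hstb, ih'.2.1.trans le_sup_left, hfgm, ?_⟩
      intro b hb hbR
      by_cases hb1 : b ∈ W₁
      · exact ih'.2.2.2 b hb1 hbR
      · obtain ⟨π₀, hπ₀, hπ₁⟩ := htyp
        -- the map `Z' → D / W₁`
        set f : ↥Z' →ₗ[K] (DD φ ⧸ W₁) := (W₁.mkQ.comp (mR w)).comp Z'.subtype with hfdef
        have hkf : ∀ z : ↥Z', f z = 0 ↔ (z : DD φ) ∈ Z := by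
          intro z
          rw [← h]
          constructor
          · intro hz
            exact ⟨z.2, (Submodule.Quotient.mk_eq_zero W₁).1 hz⟩
          · intro hz
            exact (Submodule.Quotient.mk_eq_zero W₁).2 hz.2
        have hinj : LinearMap.ker ((LinearMap.ker f).liftQ f le_rfl) = ⊥ := by
          rw [Submodule.ker_liftQ, Submodule.mkQ_map_self]
        obtain ⟨g, hg⟩ := LinearMap.exists_leftInverse_of_injective _ hinj
        have hkπ : LinearMap.ker f ≤ LinearMap.ker (π₀.comp Z'.subtype) := by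
          intro z hz
          rw [LinearMap.mem_ker] at hz ⊢
          exact (hπ₀ z z.2).2 ((hkf z).1 hz)
        set π : DD φ →ₗ[K] (Fin t.ρ → K) :=
          (((LinearMap.ker f).liftQ (π₀.comp Z'.subtype) hkπ).comp g).comp W₁.mkQ with hπ
        have hval : ∀ u ∈ W₁, ∀ z ∈ Z', π (u + z * w) = π₀ z := by
          intro u hu z hz
          have h1 : W₁.mkQ (u + z * w) = (LinearMap.ker f).liftQ f le_rfl
              ((LinearMap.ker f).mkQ ⟨z, hz⟩) := by
            rw [map_add, Submodule.mkQ_apply W₁ u, (Submodule.Quotient.mk_eq_zero W₁).2 hu, zero_add]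
            rfl
          have h2 : g (W₁.mkQ (u + z * w)) = (LinearMap.ker f).mkQ ⟨z, hz⟩ := by
            rw [h1]
            exact LinearMap.congr_fun hg _
          rw [hπ, LinearMap.comp_apply, LinearMap.comp_apply, h2]
          rfl
        refine ⟨t, ht, W₁ ⊔ Z'.map (mR w), hstb, hfgm, hb, π, ?_, ?_, ?_⟩
        · intro d hd
          have h1 := hval d (ih'.2.1 hd) 0 (Submodule.zero_mem _)
          rwa [zero_mul, add_zero, map_zero] at h1
        · intro d hd
          obtain ⟨u, hu, _, ⟨z, hz, rfl⟩, rfl⟩ := Submodule.mem_sup.1 hd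
          rw [mR_apply, hval u hu z hz, mul_add, ← mul_assoc,
            hval _ (hst₁ u hu).1 _ (hZ' z hz).1, hπ₁ z hz]
        · obtain ⟨u, hu, _, ⟨z, hz, rfl⟩, rfl⟩ := Submodule.mem_sup.1 hb
          rw [mR_apply, hval u hu z hz]
          intro h0
          apply hb1
          exact Submodule.add_mem _ hu (Submodule.mem_sup_right ⟨z, (hπ₀ z hz).1 h0, rfl⟩)
    · have h1 : Z'.map (mR w) ≤ W₁ := by
        rintro _ ⟨d, hd, rfl⟩
        rw [← h] at hd
        exact hd.2
      rw [sup_eq_left.2 h1]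
      exact ih'

end

/-- LEMT -/
theorem lemt : LemtStmt := by
  classical
  intro F K _ _ _ S A hA
  obtain ⟨V, hV⟩ := hA
  obtain ⟨L, hL1, hL2, hL3, hL4⟩ := exists_stb_finset (φ := S.σ) V
  obtain ⟨T, hT⟩ := exists_chain L hL1 hL3 _ (Rs S.σ) [] rfl hL2 Ch.base
  -- every element of `A` lies in a good subspace
  have hbase : Good T (Rs S.σ) := by
    refine ⟨stb_Rs, le_rfl, ⟨∅, le_sup_left⟩, ?_⟩
    intro b hb hbR
    exact absurd hb hbR
  have hmon : ∀ x ∈ Submonoid.closure (V : Set (DD S.σ)), ∀ W : Submodule K (DD S.σ), Good T W →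
      ∃ W' : Submodule K (DD S.σ), Good T W' ∧ W ≤ W' ∧ x ∈ W' := by
    intro x hx
    induction hx using Submonoid.closure_induction_left with
    | one =>
      intro W hW
      exact ⟨W, hW, le_rfl, hW.2.1 (Subring.one_mem _)⟩
    | mul_left v hv x _ ih =>
      intro W hW
      obtain ⟨W', h1, h2, h3⟩ := ih W hW
      refine ⟨W' ⊔ L.map (mR x), h1.add_chain h3 hT hL3, h2.trans le_sup_left, ?_⟩
      exact Submodule.mem_sup_right ⟨v, hL4 v hv, rfl⟩
  have hspan : ∀ x ∈ Submodule.span F (Submonoid.closure (V : Set (DD S.σ)) : Set (DD S.σ)),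
      ∀ W : Submodule K (DD S.σ), Good T W →
      ∃ W' : Submodule K (DD S.σ), Good T W' ∧ W ≤ W' ∧ x ∈ W' := by
    intro x hx
    induction hx using Submodule.span_induction with
    | mem x hx => exact hmon x hx
    | zero =>
      intro W hW
      exact ⟨W, hW, le_rfl, Submodule.zero_mem _⟩
    | add x z _ _ hx hz =>
      intro W hW
      obtain ⟨W₁, h1, h2, h3⟩ := hx W hW
      obtain ⟨W₂, g1, g2, g3⟩ := hz W₁ h1
      exact ⟨W₂, g1, h2.trans g2, Submodule.add_mem _ (g2 h3) g3⟩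
    | smul c x _ hx =>
      intro W hW
      obtain ⟨W₁, h1, h2, h3⟩ := hx W hW
      refine ⟨W₁, h1, h2, ?_⟩
      rw [Algebra.smul_def, algebraMap_DD]
      exact Submodule.smul_mem _ (algebraMap F K c) h3
  refine ⟨T.length, fun k => (T.get k).ρ, fun k => (T.get k).G, fun k => (T.get k).unit, ?_⟩
  intro b hb hbR
  have hb1 : b ∈ Submodule.span F (Submonoid.closure (V : Set (DD S.σ)) : Set (DD S.σ)) := by
    rw [← Algebra.adjoin_eq_span, hV]
    exact hb
  obtain ⟨W, hW, _, hbW⟩ := hspan b hb1 _ hbase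
  obtain ⟨t, ht, Y, h1, ⟨s, hs⟩, h3, π, h4, h5, h6⟩ := hW.2.2.2 b hbW hbR
  obtain ⟨k, rfl⟩ := List.mem_iff_get.1 ht
  exact ⟨k, Y, s, hs, fun d hd => (h1 d hd).1, fun d hd => (h1 d hd).2, h3, π.domRestrict Y,
    fun d hd => h4 d hd, fun d => h5 d d.2, h6⟩

end Pool.Agent.Q2N.H47
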