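import Pool.Agent.Q2N.Stmts
import Pool.Agent.Helper20_Q2N.Ind

/-!
# Type (+,+) is impossible
-/

set_option autoImplicit false

open Module

namespace Pool.Agent.Q2N.H47

open Pool.Agent.UW

section

variable {F K : Type} [Field F] [Field K] [Algebra F K]

/-- the functions with pole order at most `ν` -/
def LL (S : Dat F K) (ν : S.X → ℕ) : Submodule F K where
  carrier := {f | ∀ p, ng (ν p) ≤ S.v p f}
  add_mem' := by
    intro a b ha hb p
    exact (le_min (ha p) (hb p)).trans (AddValuation.map_add _ _ _)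
  zero_mem' := by
    intro p
    rw [AddValuation.map_zero]
    exact le_top
  smul_mem' := by
    intro c f hf p
    by_cases hc : c = 0
    · rw [hc, zero_smul, AddValuation.map_zero]
      exact le_top
    · rw [Algebra.smul_def, AddValuation.map_mul, S.v_const p c hc, zero_add]
      exact hf p

theorem common_den {D : Type} [DivisionRing D] [Algebra F D] {A : Subalgebra F D} (h : Frac A)
    (n : ℕ) (x : ℕ → D) : ∃ b ∈ A, b ≠ 0 ∧ ∀ e < n, x e * b ∈ A := by
  induction n with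
  | zero => exact ⟨1, A.one_mem, one_ne_zero, fun e he => absurd he (Nat.not_lt_zero e)⟩
  | succ n ih =>
    obtain ⟨b, hb, hb0, h1⟩ := ih
    obtain ⟨a, ha, s, hs, hs0, h2⟩ := h (x n * b)
    refine ⟨b * s, A.mul_mem hb hs, mul_ne_zero hb0 hs0, ?_⟩
    intro e he
    rcases Nat.lt_succ_iff_lt_or_eq.1 he with he | rfl
    · rw [← mul_assoc]
      exact A.mul_mem (h1 e he) hs
    · rw [← mul_assoc, h2, inv_mul_cancel_right₀ hs0]
      exact ha

/-- PLUS -/
theorem plus : PlusStmt := by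
  classical
  intro hBw hWinp hSep hSepl hPull hLemh hFdh hLemt F K _ _ _ S A hFG hFrac h0 hI
  obtain ⟨μ, hμ, hA⟩ := hWinp hBw F K S (DD S.σ) (end0 S) A hFG h0
  obtain ⟨μ', hμ', hA'⟩ := hWinp hBw F K S.inv (DD S.σ) (endI S) A hFG hI
  have hd : ∀ x ∈ (A : Set (DD S.σ)), ∀ j : ℤ, 1 ≤ j → ∀ p, ng (μ p) ≤ S.v p (del S.σ j x) := by
    intro x hx j hj p
    have h1 : (ψ' S.σ x).coeff (-j) = 0 := (hI x hx).1 (-j) (by lia)
    rw [del_apply, h1, sub_zero]
    exact hA x hx j hj p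
  have hd' : ∀ x ∈ (A : Set (DD S.σ)), ∀ j : ℤ, j ≤ -1 → ∀ p,
      ng (μ' p) ≤ S.v p (del S.σ j x) := by
    intro x hx j hj p
    have h1 : (ψ S.σ x).coeff j = 0 := (h0 x hx).1 j (by lia)
    rw [del_apply, h1, zero_sub, AddValuation.map_neg]
    exact hA' x hx (-j) (by lia) p
  obtain ⟨N, ρ, G, hG, hT⟩ := hLemt F K S A hFG
  have hH := fun k : Fin N => hLemh hSep hSepl hPull F K S (A : Set (DD S.σ)) μ μ' hμ hμ' hd hd'
    (ρ k) (G k) (hG k)
  choose ν hνfin hν using hH
  obtain ⟨f, hf⟩ := S.nonconst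
  set n : ℕ := (Finset.univ.sup fun k : Fin N => 1 + ∑ᶠ p, ν k p) + 1 with hn
  obtain ⟨b, hb, hb0, hU⟩ := common_den hFrac n (fun e => ι S.σ (f ^ (e + 1)))
  by_cases hbR : b ∈ RR S.σ
  · -- `b` is a constant
    have h1 := (h0 b hb).1
    have h2 := (hI b hb).1
    obtain ⟨c, hc⟩ := (h0 b hb).2
    have hbc : b = algebraMap F (DD S.σ) c := by
      rw [algebraMap_DD]
      apply sub_eq_zero.1
      apply ψ_inj
      ext j
      rw [map_sub, SkewLaurent.coeff_sub, SkewLaurent.coeff_zero]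
      have h3 : (ψ S.σ (ι S.σ (algebraMap F K c))).coeff j = if j = 0 then algebraMap F K c else 0 :=
        rfl
      rw [h3]
      rcases lt_trichotomy j 0 with hj | hj | hj
      · rw [if_neg hj.ne, sub_zero]
        exact h1 j hj
      · subst hj
        rw [if_pos rfl]
        exact sub_eq_zero.2 hc
      · rw [if_neg hj.ne', sub_zero]
        have h4 : (ψ' S.σ b).coeff (-j) = 0 := h2 (-j) (by lia)
        rwa [mem_RR.1 hbR, neg_neg] at h4
    have hc0 : c ≠ 0 := by
      intro h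
      apply hb0
      rw [hbc, h, map_zero]
    have h5 : ι S.σ f ∈ A := by
      have h6 := A.mul_mem (hU 0 (by omega)) (A.algebraMap_mem c⁻¹)
      have h7 : ι S.σ (f ^ (0 + 1)) * b * algebraMap F (DD S.σ) c⁻¹ = ι S.σ f := by
        rw [hbc, mul_assoc, ← map_mul, mul_inv_cancel₀ hc0, map_one, mul_one, zero_add, pow_one]
      rwa [h7] at h6
    obtain ⟨c', hc'⟩ := (h0 _ h5).2
    exact hf c' hc'.symm
  · obtain ⟨k, Y, s, hY, hst, hst', hbY, π, hπ0, hπy, hπb⟩ := hT b hb hbR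
    have hex : ∃ i, π ⟨b, hbY⟩ i ≠ 0 := by
      by_contra h
      push Not at h
      exact hπb (funext h)
    obtain ⟨i, hi⟩ := hex
    set g := π ⟨b, hbY⟩ i with hg
    -- the elements `f^(e+1) g` are in `LL`
    have hmem : ∀ e : Fin n, f ^ ((e : ℕ) + 1) * g ∈ LL S (ν k) := by
      intro e p
      have h1 : ι S.σ (f ^ ((e : ℕ) + 1)) * b ∈ A := hU e e.2
      have h2 : f ^ ((e : ℕ) + 1) • b ∈ Y := Submodule.smul_mem _ _ hbY
      have h3 := hν k Y s hY hst hst' π hπ0 hπy ⟨f ^ ((e : ℕ) + 1) • b, h2⟩ h1 i p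
      have h4 : π ⟨f ^ ((e : ℕ) + 1) • b, h2⟩ = f ^ ((e : ℕ) + 1) • π ⟨b, hbY⟩ := by
        rw [← map_smul]
        rfl
      rw [h4] at h3
      exact h3
    have hind0 := Pool.Agent.Q2N.H20.ind F K S f hf 1 one_ne_zero n
    have hind1 : LinearIndependent F (fun e : Fin n => f ^ ((e : ℕ) + 1)) := by
      have h1 := hind0.comp (fun e : Fin n => ((0 : Fin (n + 1)), e)) (by
        intro a b hab
        exact (Prod.ext_iff.1 hab).2)
      have h2 : ((fun q : Fin (n + 1) × Fin n => ((S.σ ^ ((1 : ℤ) * ((q.1 : ℕ) : ℤ))) f) ^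
          ((q.2 : ℕ) + 1)) ∘ fun e : Fin n => ((0 : Fin (n + 1)), e)) =
          fun e : Fin n => f ^ ((e : ℕ) + 1) := by
        ext e
        show ((S.σ ^ ((1 : ℤ) * (((0 : Fin (n + 1)) : ℕ) : ℤ))) f) ^ ((e : ℕ) + 1) = _
        have h3 : ((1 : ℤ) * (((0 : Fin (n + 1)) : ℕ) : ℤ)) = 0 := by simp
        rw [h3, zpow_zero]
        rfl
      rw [h2] at h1
      exact h1
    have hind2 : LinearIndependent F (fun e : Fin n => f ^ ((e : ℕ) + 1) * g) := by
      have h1 := hind1.map' (LinearMap.mulRight F g) (by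
        rw [LinearMap.ker_eq_bot]
        intro a b hab
        exact mul_right_cancel₀ hi hab)
      exact h1
    obtain ⟨hfd, hle⟩ := hFdh F K S (ν k) (hνfin k) (LL S (ν k)) (fun f hf => hf)
    have hind3 : LinearIndependent F (fun e : Fin n =>
        (⟨f ^ ((e : ℕ) + 1) * g, hmem e⟩ : ↥(LL S (ν k)))) := by
      apply LinearIndependent.of_comp (LL S (ν k)).subtype
      exact hind2
    have h5 := hind3.fintype_card_le_finrank
    rw [Fintype.card_fin] at h5
    have h6 : 1 + ∑ᶠ p, ν k p ≤ Finset.univ.sup fun k : Fin N => 1 + ∑ᶠ p, ν k p :=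
      Finset.le_sup (f := fun k : Fin N => 1 + ∑ᶠ p, ν k p) (Finset.mem_univ k)
    omega

end

end Pool.Agent.Q2N.H47
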